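import Pool.Agent.Helper36.RK.GoalsG

/-! # RK, CLG: closedness in real coordinates -/

open Complex Metric Set Filter Topology MeasureTheory Matrix
open scoped ContDiff ComplexConjugate ComplexOrder Manifold

namespace Pool.Agent.Helper75.RK

open Pool.Agent.Helper95.Lin Pool.Agent.Helper16.Abund Pool.Agent.Helper92.Orb Pool.Agent.Helper10.SP
  Pool.Agent.Helper95.RK Pool.Agent.Helper36.RK

theorem hermi_swap {n : ℕ} {A : Matrix (Fin n) (Fin n) ℂ} (hA : A.IsHermitian) (u v : Cn n) :
    hermi A v u = conj (hermi A u v) := by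
  unfold hermi
  rw [map_sum, Finset.sum_comm]
  refine Finset.sum_congr rfl fun i _ => ?_
  rw [map_sum]
  refine Finset.sum_congr rfl fun j _ => ?_
  rw [map_mul, map_mul, Complex.conj_conj, ← hA.apply j i]
  simp only [RCLike.star_def]
  ring

theorem hermi_swap_im {n : ℕ} {A : Matrix (Fin n) (Fin n) ℂ} (hA : A.IsHermitian) (u v : Cn n) :
    (hermi A v u).im = - (hermi A u v).im := by
  rw [hermi_swap hA, Complex.conj_im]

/-- The derivative of the form along a map. -/
theorem herm_hasFDerivAt {X : Type*} [NormedAddCommGroup X] [NormedSpace ℝ X] {n : ℕ}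
    (H : Cn n → Matrix (Fin n) (Fin n) ℂ) {p u v : X → Cn n} {a : X} {p' u' v' : X →L[ℝ] Cn n}
    (hp : HasFDerivAt p p' a) (hu : HasFDerivAt u u' a) (hv : HasFDerivAt v v' a)
    (hH : ∀ i j, DifferentiableAt ℝ (fun y => H y i j) (p a)) :
    ∃ L : X →L[ℝ] ℝ, HasFDerivAt (fun t => (hermi (H (p t)) (u t) (v t)).im) L a ∧
      ∀ w, L w = (∑ i, ∑ j, (fderiv ℝ (fun y => H y i j) (p a) (p' w) * u a i * conj (v a j) +
        H (p a) i j * u' w i * conj (v a j) + H (p a) i j * u a i * conj (v' w j))).im := by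
  have h1 : ∀ i j, HasFDerivAt (fun t => H (p t) i j * u t i * conj (v t j))
      ((H (p a) i j * u a i) • ((Complex.conjCLE : ℂ →L[ℝ] ℂ).comp
        ((ContinuousLinearMap.proj (R := ℝ) j).comp v')) +
        conj (v a j) • (H (p a) i j • ((ContinuousLinearMap.proj (R := ℝ) i).comp u') +
          u a i • ((fderiv ℝ (fun y => H y i j) (p a)).comp p'))) a := by
    intro i j
    have e1 : HasFDerivAt (fun t => H (p t) i j) ((fderiv ℝ (fun y => H y i j) (p a)).comp p') a :=
      HasFDerivAt.comp a (g := fun y => H y i j) (hH i j).hasFDerivAt hp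
    have e2 : HasFDerivAt (fun t => u t i) ((ContinuousLinearMap.proj (R := ℝ) i).comp u') a :=
      (ContinuousLinearMap.proj (R := ℝ) (φ := fun _ : Fin n => ℂ) i).hasFDerivAt.comp a hu
    have e3 : HasFDerivAt (fun t => v t j) ((ContinuousLinearMap.proj (R := ℝ) j).comp v') a :=
      (ContinuousLinearMap.proj (R := ℝ) (φ := fun _ : Fin n => ℂ) j).hasFDerivAt.comp a hv
    have e4 : HasFDerivAt (fun t => conj (v t j)) ((Complex.conjCLE : ℂ →L[ℝ] ℂ).comp
        ((ContinuousLinearMap.proj (R := ℝ) j).comp v')) a :=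
      (Complex.conjCLE : ℂ →L[ℝ] ℂ).hasFDerivAt.comp a e3
    exact (e1.mul e2).mul e4
  have h2 : HasFDerivAt (fun t => hermi (H (p t)) (u t) (v t)) _ a :=
    HasFDerivAt.fun_sum (u := Finset.univ) fun i _ =>
      HasFDerivAt.fun_sum (u := Finset.univ) fun j _ => h1 i j
  have h3 := Complex.imCLM.hasFDerivAt.comp a h2
  refine ⟨_, h3, fun w => ?_⟩
  simp only [ContinuousLinearMap.comp_apply, Complex.imCLM_apply]
  congr 1
  simp only [_root_.sum_apply, _root_.add_apply,
    _root_.smul_apply, ContinuousLinearMap.comp_apply,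
    ContinuousLinearMap.proj_apply, smul_eq_mul, ContinuousLinearEquiv.coe_coe,
    Complex.conjCLE_apply]
  refine Finset.sum_congr rfl fun i _ => Finset.sum_congr rfl fun j _ => ?_
  ring

theorem herm_fderiv {X : Type*} [NormedAddCommGroup X] [NormedSpace ℝ X] {n : ℕ}
    (H : Cn n → Matrix (Fin n) (Fin n) ℂ) {p u v : X → Cn n} {a : X} {p' u' v' : X →L[ℝ] Cn n}
    (hp : HasFDerivAt p p' a) (hu : HasFDerivAt u u' a) (hv : HasFDerivAt v v' a)
    (hH : ∀ i j, DifferentiableAt ℝ (fun y => H y i j) (p a)) (w : X) :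
    fderiv ℝ (fun t => (hermi (H (p t)) (u t) (v t)).im) a w =
      fderiv ℝ (fun y => (hermi (H y) (u a) (v a)).im) (p a) (p' w) +
        (hermi (H (p a)) (u' w) (v a)).im + (hermi (H (p a)) (u a) (v' w)).im := by
  obtain ⟨L, hL, hL'⟩ := herm_hasFDerivAt H hp hu hv hH
  obtain ⟨K, hK, hK'⟩ := herm_hasFDerivAt H (hasFDerivAt_id (𝕜 := ℝ) (p a))
    (hasFDerivAt_const (𝕜 := ℝ) (u a) (p a)) (hasFDerivAt_const (𝕜 := ℝ) (v a) (p a)) hH
  rw [hL.fderiv, hL']
  have h1 : fderiv ℝ (fun y => (hermi (H y) (u a) (v a)).im) (p a) = K := hK.fderiv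
  rw [h1, hK']
  unfold hermi
  rw [← Complex.add_im, ← Complex.add_im]
  congr 1
  rw [← Finset.sum_add_distrib, ← Finset.sum_add_distrib]
  refine Finset.sum_congr rfl fun i _ => ?_
  rw [← Finset.sum_add_distrib, ← Finset.sum_add_distrib]
  refine Finset.sum_congr rfl fun j _ => ?_
  simp

/-! ### The point of the fibre -/

/-- `ptK` as a linear map. -/
noncomputable def ptL (b k : ℕ) : (Cn b × Cn k) →L[ℝ] Cn (b + k) :=
  LinearMap.toContinuousLinearMap
    { toFun := fun q => ptK q.1 q.2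
      map_add' := fun q r => by
        funext i
        unfold ptK
        refine Fin.addCases (fun i => ?_) (fun i => ?_) i
        · simp [Fin.append_left]
        · simp [Fin.append_right]
      map_smul' := fun t q => by
        funext i
        unfold ptK
        refine Fin.addCases (fun i => ?_) (fun i => ?_) i
        · simp [Fin.append_left]
        · simp [Fin.append_right] }

theorem ptL_apply {b k : ℕ} (q : Cn b × Cn k) : ptL b k q = ptK q.1 q.2 := rfl

theorem ptK_hasFDerivAt {X : Type*} [NormedAddCommGroup X] [NormedSpace ℝ X] {b k : ℕ}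
    {A : X → Cn b} {B : X → Cn k} {A' : X →L[ℝ] Cn b} {B' : X →L[ℝ] Cn k} {a : X}
    (hA : HasFDerivAt A A' a) (hB : HasFDerivAt B B' a) :
    HasFDerivAt (fun y => ptK (A y) (B y)) ((ptL b k).comp (A'.prod B')) a :=
  (ptL b k).hasFDerivAt.comp a (hA.prodMk hB)

theorem isOpen_tubeK' {b k N : ℕ} (c : Fin N → Cn b) (R : ℝ) :
    IsOpen (tubeK k (Bd c R) : Set (Cn (b + k))) := by
  have h1 : Continuous (base : Cn (b + k) → Cn b) := by
    unfold base
    fun_prop
  exact (isOpen_iUnion fun i => isOpen_ball).preimage h1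

theorem base_ptK' {b k : ℕ} (z : Cn b) (w : Cn k) : base (ptK z w) = z := by
  funext i
  simp [base, ptK, Fin.append_left]

theorem Lx_single {b k : ℕ} (lam : Fin (2 * k) → Cn b → Cn k) (z : Cn b) (j : Fin (2 * k)) :
    Lx lam z (Pi.single j 1) = lam j z := by
  unfold Lx
  rw [Finset.sum_eq_single j]
  · simp
  · intro i _ hi
    simp [Pi.single_eq_of_ne hi]
  · simp

theorem dLx_single {b k : ℕ} (lam : Fin (2 * k) → Cn b → Cn k) (z e : Cn b) (j : Fin (2 * k)) :
    dLx lam z (Pi.single j 1) e = fderiv ℂ (lam j) z e := by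
  unfold dLx
  rw [Finset.sum_eq_single j]
  · simp
  · intro i _ hi
    simp [Pi.single_eq_of_ne hi]
  · simp

/-- `∑ x_j v_j` as a linear map. -/
noncomputable def combL {m k : ℕ} (v : Fin m → Cn k) : (Fin m → ℝ) →L[ℝ] Cn k :=
  LinearMap.toContinuousLinearMap
    { toFun := fun x => ∑ j, (x j : ℂ) • v j
      map_add' := fun x y => by
        rw [← Finset.sum_add_distrib]
        refine Finset.sum_congr rfl fun j _ => ?_
        rw [Pi.add_apply, Complex.ofReal_add, add_smul]
      map_smul' := fun t x => by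
        rw [RingHom.id_apply, Finset.smul_sum]
        refine Finset.sum_congr rfl fun j _ => ?_
        rw [Pi.smul_apply, smul_eq_mul, Complex.ofReal_mul, mul_smul, Complex.coe_smul] }

/-- CLG. -/
theorem clg (hCLR : S_CLR) : S_CLG := by
  intro b k N c R P Φ Hf C H hA hK lam hlam z hz x e j l
  have hR : (3 : ℝ) ≤ R := by
    have := hA.Rge
    have := hA.Cge
    linarith
  have hzR : z ∈ Bd c R := by
    obtain ⟨i, hi⟩ := mem_iUnion.1 hz
    exact mem_iUnion.2 ⟨i, ball_subset_ball hR hi⟩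
  set W : Set (Cn (b + k)) := tubeK k (Bd c R) with hW
  have hWo : IsOpen W := isOpen_tubeK' c R
  set p0 := ptK z (Lx lam z x) with hp0
  have hp0W : p0 ∈ W := by
    show base p0 ∈ Bd c R
    rw [hp0, base_ptK']
    exact hzR
  have hH : ∀ i j, DifferentiableAt ℝ (fun y => H y i j) p0 := fun i j =>
    ((hK.smooth i j).contDiffAt (hWo.mem_nhds hp0W)).differentiableAt (by simp)
  have hBo : IsOpen (Bd c 3) := isOpen_iUnion fun i => isOpen_ball
  have hlamd : ∀ j, HasFDerivAt (lam j) ((fderiv ℂ (lam j) z).restrictScalars ℝ) z := fun j =>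
    (((hlam.holo j).differentiableAt (hBo.mem_nhds hz)).hasFDerivAt).restrictScalars ℝ
  -- the derivative of `Lx` with respect to `z`
  have hLz : HasFDerivAt (fun y => Lx lam y x)
      (∑ j, (x j : ℂ) • (fderiv ℂ (lam j) z).restrictScalars ℝ) z :=
    HasFDerivAt.fun_sum (u := Finset.univ) fun j _ => (hlamd j).const_smul (x j : ℂ)
  have hz0 : HasFDerivAt (fun _ : Cn b => (0 : Cn b)) (0 : Cn b →L[ℝ] Cn b) z :=
    hasFDerivAt_const _ _
  have hleft := herm_fderiv H (ptK_hasFDerivAt (hasFDerivAt_id (𝕜 := ℝ) z) hLz)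
    (ptK_hasFDerivAt hz0 (hlamd j)) (ptK_hasFDerivAt hz0 (hlamd l)) hH e
  have e1 : (fun y => fL H lam y x j l) = fun t => (hermi (H (ptK (id t) (Lx lam t x)))
      (ptK 0 (lam j t)) (ptK 0 (lam l t))).im := rfl
  rw [e1, hleft]
  -- the derivatives with respect to `x`
  have hLx : HasFDerivAt (fun y => Lx lam z y) (combL fun j => lam j z) x :=
    (combL fun j => lam j z).hasFDerivAt
  have hdLx : HasFDerivAt (fun y => dLx lam z y e) (combL fun j => fderiv ℂ (lam j) z e) x :=
    (combL fun j => fderiv ℂ (lam j) z e).hasFDerivAt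
  have hcz : ∀ v : Cn b, HasFDerivAt (fun _ : Fin (2 * k) → ℝ => v)
      (0 : (Fin (2 * k) → ℝ) →L[ℝ] Cn b) x := fun v => hasFDerivAt_const _ _
  have hcf : ∀ v : Cn k, HasFDerivAt (fun _ : Fin (2 * k) → ℝ => v)
      (0 : (Fin (2 * k) → ℝ) →L[ℝ] Cn k) x := fun v => hasFDerivAt_const _ _
  have hright : ∀ j l : Fin (2 * k),
      fderiv ℝ (fun y => rL H lam z y e l) x (Pi.single j 1) =
        fderiv ℝ (fun y => (hermi (H y) (ptK e (dLx lam z x e)) (ptK 0 (lam l z))).im) p0
          (ptK 0 (lam j z)) +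
        (hermi (H p0) (ptK 0 (fderiv ℂ (lam j) z e)) (ptK 0 (lam l z))).im := by
    intro j l
    have h1 := herm_fderiv H (ptK_hasFDerivAt (hcz z) hLx) (ptK_hasFDerivAt (hcz e) hdLx)
      (ptK_hasFDerivAt (hcz 0) (hcf (lam l z))) hH (Pi.single j 1)
    have e2 : (fun y => rL H lam z y e l) = fun t => (hermi (H (ptK z (Lx lam z t)))
      (ptK e (dLx lam z t e)) (ptK 0 (lam l z))).im := rfl
    rw [e2, h1]
    simp only [ContinuousLinearMap.comp_apply, ContinuousLinearMap.prod_apply, ptL_apply,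
      _root_.zero_apply]
    have h2 : (combL fun j => lam j z) (Pi.single j 1) = lam j z := Lx_single lam z j
    have h3 : (combL fun j => fderiv ℂ (lam j) z e) (Pi.single j 1) = fderiv ℂ (lam j) z e :=
      dLx_single lam z e j
    rw [h2, h3]
    have h4 : (ptK (0 : Cn b) (0 : Cn k) : Cn (b + k)) = 0 := (ptL b k).map_zero
    have h5 : ∀ A : Matrix (Fin (b + k)) (Fin (b + k)) ℂ, ∀ u, hermi A u 0 = 0 := by
      intro A u
      simp [hermi]
    rw [h4, h5, Complex.zero_im, add_zero]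
  rw [hright, hright]
  simp only [ContinuousLinearMap.comp_apply, ContinuousLinearMap.prod_apply, ptL_apply,
    _root_.zero_apply, ContinuousLinearMap.id_apply, id_eq]
  have hdE : (∑ j, (x j : ℂ) • (fderiv ℂ (lam j) z).restrictScalars ℝ : Cn b →L[ℝ] Cn k) e =
      dLx lam z x e := by
    unfold dLx
    simp [_root_.sum_apply]
  rw [hdE]
  simp only [ContinuousLinearMap.coe_restrictScalars']
  -- the relations
  have hHerm : ∀ y ∈ W, (H y).IsHermitian := fun y hy => (hK.posDef y hy).isHermitian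
  have hCl := hCLR W H hWo hK.posDef hK.smooth hK.closed p0 hp0W (ptK 0 (lam j z))
    (ptK 0 (lam l z)) (ptK e (dLx lam z x e))
  have hsw : fderiv ℝ (fun y => (hermi (H y) (ptK 0 (lam l z)) (ptK e (dLx lam z x e))).im) p0
      (ptK 0 (lam j z)) = - fderiv ℝ (fun y => (hermi (H y) (ptK e (dLx lam z x e))
        (ptK 0 (lam l z))).im) p0 (ptK 0 (lam j z)) := by
    have h6 : (fun y => (hermi (H y) (ptK 0 (lam l z)) (ptK e (dLx lam z x e))).im) =ᶠ[𝓝 p0]
        fun y => - (hermi (H y) (ptK e (dLx lam z x e)) (ptK 0 (lam l z))).im := by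
      filter_upwards [hWo.mem_nhds hp0W] with y hy
      exact hermi_swap_im (hHerm y hy) _ _
    rw [h6.fderiv_eq, fderiv_fun_neg]
    rfl
  rw [hsw] at hCl
  have hsw2 : (hermi (H p0) (ptK 0 (lam j z)) (ptK 0 (fderiv ℂ (lam l) z e))).im =
      - (hermi (H p0) (ptK 0 (fderiv ℂ (lam l) z e)) (ptK 0 (lam j z))).im :=
    hermi_swap_im (hHerm p0 hp0W) _ _
  rw [← hp0, hsw2]
  linarith

end Pool.Agent.Helper75.RK
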