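import Pool.Agent.Helper36.RK.GoalsG

/-! # RK, STK: averages of closed forms (integration by parts) -/

open Complex Metric Set Filter Topology MeasureTheory Matrix
open scoped ContDiff ComplexConjugate ComplexOrder Manifold

namespace Pool.Agent.Helper75.RK

open Pool.Agent.Helper95.Lin Pool.Agent.Helper16.Abund Pool.Agent.Helper92.Orb Pool.Agent.Helper10.SP
  Pool.Agent.Helper95.RK Pool.Agent.Helper36.RK

section

variable {m : ℕ} {δ : ℝ}

/-- The slices of a function which is smooth near the segment. -/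
theorem slice_hasFDerivAt {f : ℝ → (Fin m → ℝ) → ℝ}
    (hf : ContDiffOn ℝ 1 (fun p : ℝ × (Fin m → ℝ) => f p.1 p.2) (Ioo (-δ) (1 + δ) ×ˢ univ))
    {τ : ℝ} (hτ : τ ∈ Ioo (-δ) (1 + δ)) (x : Fin m → ℝ) :
    HasFDerivAt (fun p : ℝ × (Fin m → ℝ) => f p.1 p.2)
      (fderiv ℝ (fun p : ℝ × (Fin m → ℝ) => f p.1 p.2) (τ, x)) (τ, x) := by
  have hopen : IsOpen (Ioo (-δ) (1 + δ) ×ˢ (univ : Set (Fin m → ℝ))) := isOpen_Ioo.prod isOpen_univ
  exact ((hf.differentiableOn (by norm_num)).differentiableAt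
    (hopen.mem_nhds ⟨hτ, mem_univ _⟩)).hasFDerivAt

theorem slice_hasDerivAt {f : ℝ → (Fin m → ℝ) → ℝ}
    (hf : ContDiffOn ℝ 1 (fun p : ℝ × (Fin m → ℝ) => f p.1 p.2) (Ioo (-δ) (1 + δ) ×ˢ univ))
    {τ : ℝ} (hτ : τ ∈ Ioo (-δ) (1 + δ)) (x : Fin m → ℝ) :
    HasDerivAt (fun τ' => f τ' x)
      (fderiv ℝ (fun p : ℝ × (Fin m → ℝ) => f p.1 p.2) (τ, x) (1, 0)) τ := by
  have h1 := slice_hasFDerivAt hf hτ x
  have h2 : HasDerivAt (fun τ' : ℝ => (τ', x)) ((1 : ℝ), (0 : Fin m → ℝ)) τ :=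
    (hasDerivAt_id τ).prodMk (hasDerivAt_const τ x)
  exact h1.comp_hasDerivAt τ h2

theorem fderiv_cont {f : ℝ → (Fin m → ℝ) → ℝ}
    (hf : ContDiffOn ℝ 1 (fun p : ℝ × (Fin m → ℝ) => f p.1 p.2) (Ioo (-δ) (1 + δ) ×ˢ univ))
    (v : ℝ × (Fin m → ℝ)) :
    ContinuousOn (fun p => fderiv ℝ (fun p : ℝ × (Fin m → ℝ) => f p.1 p.2) p v)
      (Ioo (-δ) (1 + δ) ×ˢ univ) := by
  have hopen : IsOpen (Ioo (-δ) (1 + δ) ×ˢ (univ : Set (Fin m → ℝ))) := isOpen_Ioo.prod isOpen_univ
  exact (hf.continuousOn_fderiv_of_isOpen hopen le_rfl).clm_apply continuousOn_const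

theorem slice_contDiff {f : ℝ → (Fin m → ℝ) → ℝ}
    (hf : ContDiffOn ℝ 1 (fun p : ℝ × (Fin m → ℝ) => f p.1 p.2) (Ioo (-δ) (1 + δ) ×ˢ univ))
    {τ : ℝ} (hτ : τ ∈ Ioo (-δ) (1 + δ)) : ContDiff ℝ 1 (f τ) := by
  rw [← contDiffOn_univ]
  have h2 : ContDiffOn ℝ 1 (fun x : Fin m → ℝ => (τ, x)) univ :=
    (contDiff_const.prodMk contDiff_id).contDiffOn
  exact hf.comp h2 fun x _ => ⟨hτ, mem_univ _⟩

/-- Integration by parts. -/
theorem parts {φ G : (Fin m → ℝ) → ℝ} (hφ : WF φ) (hG : ContDiff ℝ 1 G) (v : Fin m → ℝ) :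
    ∫ y, φ y * fderiv ℝ G y v = - ∫ y, fderiv ℝ φ y v * G y := by
  have hφc := hφ.1.continuous
  have hGc := hG.continuous
  have hφ' : Continuous fun y => fderiv ℝ φ y v :=
    (hφ.1.continuous_fderiv one_ne_zero).clm_apply continuous_const
  have hG' : Continuous fun y => fderiv ℝ G y v :=
    (hG.continuous_fderiv one_ne_zero).clm_apply continuous_const
  refine integral_mul_fderiv_eq_neg_fderiv_mul_of_integrable ?_ ?_ ?_
    (fun x _ => hφ.1.differentiable one_ne_zero x) (fun x _ => hG.differentiable one_ne_zero x)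
  · exact (hφ'.mul hGc).integrable_of_hasCompactSupport ((hφ.2.fderiv_apply ℝ v).mul_right)
  · exact (hφc.mul hG').integrable_of_hasCompactSupport hφ.2.mul_right
  · exact (hφc.mul hGc).integrable_of_hasCompactSupport hφ.2.mul_right

end

/-- STK. -/
theorem stk : S_STK := by
  intro m j l f rl rj φ ε B s δ hφ hs hε hB hδ hf hrl hrj hcl hbd
  have hφc := hφ.1.continuous
  set D : ℝ → (Fin m → ℝ) → ℝ := fun τ x =>
    fderiv ℝ (fun p : ℝ × (Fin m → ℝ) => f p.1 p.2) (τ, x) (1, 0) with hD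
  have hIcc : ∀ τ ∈ Icc (0 : ℝ) 1, τ ∈ Ioo (-δ) (1 + δ) := fun τ hτ =>
    ⟨by linarith [hτ.1], by linarith [hτ.2]⟩
  have hDc : ∀ τ ∈ Ioo (-δ) (1 + δ), Continuous fun y : Fin m → ℝ => D τ (s • y) := by
    intro τ hτ
    have h1 := fderiv_cont hf (1, 0)
    have h2 : Continuous fun y : Fin m → ℝ => ((τ, s • y) : ℝ × (Fin m → ℝ)) := by fun_prop
    exact h1.comp_continuous h2 fun y => ⟨hτ, mem_univ _⟩
  have hfc : ∀ τ ∈ Ioo (-δ) (1 + δ), Continuous fun y : Fin m → ℝ => f τ (s • y) := fun τ hτ =>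
    (slice_contDiff hf hτ).continuous.comp (by fun_prop)
  -- the derivative of the integral
  have hder : ∀ τ ∈ Icc (0 : ℝ) 1, HasDerivAt (fun τ => ∫ y, φ y * f τ (s • y))
      (∫ y, φ y * D τ (s • y)) τ := by
    intro τ hτ
    set η := δ / 2 with hη
    have hη0 : 0 < η := by positivity
    have hsub : Icc (τ - η) (τ + η) ⊆ Ioo (-δ) (1 + δ) := fun t ht =>
      ⟨by linarith [ht.1, hτ.1], by linarith [ht.2, hτ.2]⟩
    have hcomp : IsCompact (Icc (τ - η) (τ + η) ×ˢ tsupport φ) :=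
      isCompact_Icc.prod hφ.2
    have hcont : ContinuousOn (fun p : ℝ × (Fin m → ℝ) => D p.1 (s • p.2))
        (Icc (τ - η) (τ + η) ×ˢ tsupport φ) := by
      have h1 := fderiv_cont hf (1, 0)
      have h2 : Continuous fun p : ℝ × (Fin m → ℝ) => ((p.1, s • p.2) : ℝ × (Fin m → ℝ)) := by
        fun_prop
      exact h1.comp h2.continuousOn fun p hp => ⟨hsub hp.1, mem_univ _⟩
    obtain ⟨C, hC⟩ := hcomp.exists_bound_of_continuousOn hcont
    refine (hasDerivAt_integral_of_dominated_loc_of_deriv_le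
      (F := fun τ y => φ y * f τ (s • y)) (F' := fun τ y => φ y * D τ (s • y))
      (bound := fun y => |φ y| * C) (s := Icc (τ - η) (τ + η))
      (Icc_mem_nhds (by linarith) (by linarith)) ?_ ?_ ?_ ?_ ?_ ?_).2
    · filter_upwards [Icc_mem_nhds (show τ - η < τ by linarith) (show τ < τ + η by linarith)] with t ht
      exact (hφc.mul (hfc t (hsub ht))).aestronglyMeasurable
    · exact (hφc.mul (hfc τ (hIcc τ hτ))).integrable_of_hasCompactSupport hφ.2.mul_right
    · exact (hφc.mul (hDc τ (hIcc τ hτ))).aestronglyMeasurable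
    · refine Eventually.of_forall fun y t ht => ?_
      rw [norm_mul, Real.norm_eq_abs (φ y)]
      by_cases hy : y ∈ tsupport φ
      · exact mul_le_mul_of_nonneg_left (hC (t, y) ⟨ht, hy⟩) (abs_nonneg _)
      · rw [image_eq_zero_of_notMem_tsupport hy]
        simp
    · exact (hφc.abs.mul continuous_const).integrable_of_hasCompactSupport
        (HasCompactSupport.mul_right (by
          exact hφ.2.comp_left (g := fun x : ℝ => |x|) abs_zero))
    · refine Eventually.of_forall fun y t ht => ?_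
      exact (slice_hasDerivAt hf (hsub ht) (s • y)).const_mul (φ y)
  -- the bound
  have hint : Integrable fun y => (|fderiv ℝ φ y (Pi.single j 1)| +
      |fderiv ℝ φ y (Pi.single l 1)|) * (ε * ‖y‖ + B / s) := by
    have h1 : ∀ v : Fin m → ℝ, Continuous fun y => |fderiv ℝ φ y v| := fun v =>
      ((hφ.1.continuous_fderiv one_ne_zero).clm_apply continuous_const).abs
    refine Continuous.integrable_of_hasCompactSupport (((h1 _).add (h1 _)).mul (by fun_prop)) ?_
    refine HasCompactSupport.mul_right ?_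
    refine HasCompactSupport.add ?_ ?_
    · exact (hφ.2.fderiv_apply ℝ _).comp_left (g := fun x : ℝ => |x|) abs_zero
    · exact (hφ.2.fderiv_apply ℝ _).comp_left (g := fun x : ℝ => |x|) abs_zero
  have hbound : ∀ τ ∈ Icc (0 : ℝ) 1, ‖∫ y, φ y * D τ (s • y)‖ ≤
      ∫ y, (|fderiv ℝ φ y (Pi.single j 1)| + |fderiv ℝ φ y (Pi.single l 1)|) *
        (ε * ‖y‖ + B / s) := by
    intro τ hτ
    have hGl : ContDiff ℝ 1 fun y : Fin m → ℝ => rl τ (s • y) :=
      (slice_contDiff hrl (hIcc τ hτ)).comp (contDiff_const_smul s)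
    have hGj : ContDiff ℝ 1 fun y : Fin m → ℝ => rj τ (s • y) :=
      (slice_contDiff hrj (hIcc τ hτ)).comp (contDiff_const_smul s)
    have hch : ∀ (r : (Fin m → ℝ) → ℝ), ContDiff ℝ 1 r → ∀ y v : Fin m → ℝ,
        fderiv ℝ (fun y : Fin m → ℝ => r (s • y)) y v = s * fderiv ℝ r (s • y) v := by
      intro r hr y v
      have h1 : HasFDerivAt (fun y : Fin m → ℝ => s • y)
          (s • ContinuousLinearMap.id ℝ (Fin m → ℝ)) y :=
        (hasFDerivAt_id y).const_smul s
      have h2 := ((hr.differentiable one_ne_zero (s • y)).hasFDerivAt).comp y h1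
      have h3 : fderiv ℝ (fun y : Fin m → ℝ => r (s • y)) y =
          (fderiv ℝ r (s • y)).comp (s • ContinuousLinearMap.id ℝ (Fin m → ℝ)) := h2.fderiv
      rw [h3]
      simp
    have hDτ : ∀ y, φ y * D τ (s • y) = s⁻¹ * (φ y *
        fderiv ℝ (fun y : Fin m → ℝ => rl τ (s • y)) y (Pi.single j 1) - φ y *
          fderiv ℝ (fun y : Fin m → ℝ => rj τ (s • y)) y (Pi.single l 1)) := by
      intro y
      rw [hch _ (slice_contDiff hrl (hIcc τ hτ)), hch _ (slice_contDiff hrj (hIcc τ hτ))]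
      have h1 := (slice_hasDerivAt hf (hIcc τ hτ) (s • y)).deriv
      rw [hcl τ hτ (s • y)] at h1
      have h2 : D τ (s • y) = fderiv ℝ (rl τ) (s • y) (Pi.single j 1) -
          fderiv ℝ (rj τ) (s • y) (Pi.single l 1) := h1.symm
      rw [h2]
      field_simp
    have hi1 : Integrable fun y => φ y *
        fderiv ℝ (fun y : Fin m → ℝ => rl τ (s • y)) y (Pi.single j 1) :=
      (hφc.mul ((hGl.continuous_fderiv one_ne_zero).clm_apply
        continuous_const)).integrable_of_hasCompactSupport hφ.2.mul_right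
    have hi2 : Integrable fun y => φ y *
        fderiv ℝ (fun y : Fin m → ℝ => rj τ (s • y)) y (Pi.single l 1) :=
      (hφc.mul ((hGj.continuous_fderiv one_ne_zero).clm_apply
        continuous_const)).integrable_of_hasCompactSupport hφ.2.mul_right
    have hφ' : ∀ v : Fin m → ℝ, Continuous fun y => fderiv ℝ φ y v := fun v =>
      (hφ.1.continuous_fderiv one_ne_zero).clm_apply continuous_const
    have hi3 : Integrable fun y => fderiv ℝ φ y (Pi.single j 1) * rl τ (s • y) :=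
      ((hφ' _).mul hGl.continuous).integrable_of_hasCompactSupport
        ((hφ.2.fderiv_apply ℝ _).mul_right)
    have hi4 : Integrable fun y => fderiv ℝ φ y (Pi.single l 1) * rj τ (s • y) :=
      ((hφ' _).mul hGj.continuous).integrable_of_hasCompactSupport
        ((hφ.2.fderiv_apply ℝ _).mul_right)
    have h3 : ∫ y, φ y * D τ (s • y) = ∫ y, s⁻¹ * (fderiv ℝ φ y (Pi.single l 1) * rj τ (s • y) -
        fderiv ℝ φ y (Pi.single j 1) * rl τ (s • y)) := by
      rw [integral_congr_ae (Eventually.of_forall hDτ), integral_const_mul, integral_const_mul,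
        integral_sub hi1 hi2, integral_sub hi4 hi3, parts hφ hGl, parts hφ hGj]
      ring
    rw [h3]
    refine norm_integral_le_of_norm_le hint (Eventually.of_forall fun y => ?_)
    obtain ⟨b1, b2⟩ := hbd τ hτ (s • y)
    have hn : ‖s • y‖ = s * ‖y‖ := by rw [norm_smul, Real.norm_eq_abs, abs_of_pos hs]
    rw [hn] at b1 b2
    rw [norm_mul, Real.norm_eq_abs, Real.norm_eq_abs, abs_of_pos (inv_pos.2 hs)]
    have h4 : |fderiv ℝ φ y (Pi.single l 1) * rj τ (s • y) -
        fderiv ℝ φ y (Pi.single j 1) * rl τ (s • y)| ≤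
        (|fderiv ℝ φ y (Pi.single j 1)| + |fderiv ℝ φ y (Pi.single l 1)|) *
          (ε * (s * ‖y‖) + B) := by
      refine (abs_sub _ _).trans ?_
      rw [abs_mul, abs_mul, add_mul]
      have h5 := mul_le_mul_of_nonneg_left b2 (abs_nonneg (fderiv ℝ φ y (Pi.single l 1)))
      have h6 := mul_le_mul_of_nonneg_left b1 (abs_nonneg (fderiv ℝ φ y (Pi.single j 1)))
      linarith
    refine (mul_le_mul_of_nonneg_left h4 (inv_pos.2 hs).le).trans (le_of_eq ?_)
    field_simp
  have := norm_image_sub_le_of_norm_deriv_le_segment_01'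
    (f := fun τ => ∫ y, φ y * f τ (s • y)) (f' := fun τ => ∫ y, φ y * D τ (s • y))
    (fun τ hτ => (hder τ hτ).hasDerivWithinAt) (fun τ hτ => hbound τ ⟨hτ.1, hτ.2.le⟩)
  exact this

end Pool.Agent.Helper75.RK
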